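import Pool.Agent.Work.MP_47bae8_ab.Alg

set_option autoImplicit false

/-!
# Intermixed languages in the star-free closure of the commutative group languages

Let `CSF` be the smallest class of languages over `A` that contains the letters and the languages
`{w | w.count a ≡ r mod m}` and is closed under complement, union and product. A language in `CSF`
is intermixed iff it satisfies the identity `x ^ (ω + 1) = x ^ ω`, where `x` is the image of a
letter (or `1`). The same holds under the equivalent algebraic hypothesis: the syntactic monoid is
finite and, for some `m > 0`, the images of the words in which every letter occurs a multiple of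
`m` times are aperiodic elements.
-/

namespace Pool.Agent.Results.MP_47bae8_lc.CommutativeClosure

open Pool.Agent.Work.MP_47bae8_lc
open Pool.Agent.Work.MP_47bae8_ab

theorem result {A : Type} [Finite A] [Nonempty A] [DecidableEq A] (L : Set (List A))
    (h : CSF L ∨ (Finite (Syn L) ∧ ∃ m N : ℕ, 0 < m ∧ ∀ w : List A, (∀ a, m ∣ w.count a) →
      (η L (FreeMonoid.ofList w)) ^ (N + 1) = (η L (FreeMonoid.ofList w)) ^ N)) :
    Intermixed L ↔ Satisfies L idOne := by
  have h' : CSF L := h.elim id (csf_iff_kerAp L).2
  exact ⟨fun h1 => idOne_valid h1, fun h1 => h'.intermixed h1⟩

end Pool.Agent.Results.MP_47bae8_lc.CommutativeClosure
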