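import Pool.Agent.Work.MP_47bae8_lc.Ids

set_option autoImplicit false

/-!
# New identities satisfied by all intermixed languages

Every intermixed language, over any alphabet, satisfies the identity `t ^ (ω + 1) = t ^ ω` for
`t = (y ^ ω x ^ ω) ^ ω y x ^ j`, where `x` and `y` are images of letters or `1`.
-/

namespace Pool.Agent.Results.MP_47bae8_lc.EventIdentities

open Pool.Agent.Work.MP_47bae8_lc

theorem result {A : Type} (K : Set (List A)) (hK : Intermixed K) (j : ℕ) :
    Satisfies K (stable (eventTerm j)) :=
  event_valid hK j

end Pool.Agent.Results.MP_47bae8_lc.EventIdentities
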