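import Pool.Agent.Work.MP_47bae8_lc.Ids

set_option autoImplicit false

/-!
# No finite set of identities characterises the intermixed languages

Let `S` be a set of identities between `ω`-terms such that all intermixed languages over the
alphabet `{0, 1}` satisfy them, and such that the number of occurrences of variables in the terms is
bounded (for instance, any finite set of valid identities). Then there is a regular language over
`{0, 1}` that satisfies all identities of `S`, and the two known identities, but is not intermixed.
The language is the set of all words with an even number of occurrences of the factor `1 0^j 1`.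
-/

namespace Pool.Agent.Results.MP_47bae8_lc.NoFiniteBasis

open Pool.Agent.Work.MP_47bae8_lc

theorem result (S : Set (OmegaTerm × OmegaTerm)) (B : ℕ)
    (hB : ∀ e ∈ S, e.1.size ≤ B ∧ e.2.size ≤ B)
    (hS : ∀ e ∈ S, ∀ K : Set (List (Fin 2)), Intermixed K → Satisfies K e) :
    ∃ L : Language (Fin 2), L.IsRegular ∧ (∀ e ∈ S, Satisfies L e) ∧
      Satisfies L idOne ∧ Satisfies L idTwo ∧ ¬ Intermixed L := by
  refine ⟨Lang (B + 5), ?_, ?_, ?_, ?_, ?_⟩
  · have : Finite (Syn (Lang (B + 5))) := inferInstance
    exact regular_of_finite (Lang (B + 5) : Language (Fin 2))
  · intro e he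
    have := hB e he
    exact Lang_satisfies (by omega) (by omega) (hS e he)
  · exact Lang_satisfies (by change 1 + 1 < B + 5; omega) (by change 1 < B + 5; omega)
      (fun K hK => idOne_valid hK)
  · exact Lang_satisfies (by change (1 + 1) + (1 + 1) < B + 5; omega)
      (by change 1 + 1 < B + 5; omega) (fun K hK => idTwo_valid hK)
  · intro h
    exact Lang_not_good (j := B + 5) (by omega) h.good

end Pool.Agent.Results.MP_47bae8_lc.NoFiniteBasis
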