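import Pool.Agent.Work.MP_47bae8_bl.Transfer

set_option autoImplicit false

/-!
# Computing in a finite monoid across separators

Let `ρ` be a morphism from the free monoid over `B` to a finite monoid `M`, and let `Z` be a
language over `B`. Cut a word over `B ⊕ D` at its letters from `D`. The languages of all words
whose blocks lie in `Z` and whose projection to `B` has a given value under `ρ` are intermixed iff
the languages of all words in `Z` with a given value are intermixed.
-/

namespace Pool.Agent.Results.MP_47bae8_lc.SeparatorTransfer

open Pool.Agent.Work.MP_47bae8_lc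
open Pool.Agent.Work.MP_47bae8_bl

theorem result {B D M : Type} [Finite B] [Nonempty B] [Finite D] [Monoid M] [Finite M]
    (ρ : B → M) (Z : Set (List B)) :
    (∀ m : M, Intermixed {w : List (B ⊕ D) | (∀ z ∈ blocks w, z ∈ Z) ∧
      ((blocks w).flatten.map ρ).prod = m}) ↔
    (∀ m : M, Intermixed {z : List B | z ∈ Z ∧ (z.map ρ).prod = m}) :=
  transfer_iff ρ Z

end Pool.Agent.Results.MP_47bae8_lc.SeparatorTransfer
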